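import Mathlib
import Pool.Agent.Results.MP_d5a1e1_nt.VarianceGap

/-!
# At least `1000` representations of almost all numbers force `1065` representations infinitely often

`r A n` is the number of ordered pairs of elements of `A` with sum `n`.

If `r A n ≥ 1000` for all sufficiently large `n`, then `r A n ≥ 1065` for infinitely many `n`.
More generally, if `r A n ≥ k` for all `n` outside a set of density zero, then `r A n ≥ k + 2 √k` for
infinitely many `n`.

Proof: by the second moment inequality of the starting library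
(`Pool.Agent.Results.MP_d5a1e1_nt.VarianceGap`) applied to unordered representations.
-/

set_option autoImplicit false

open Finset Filter

namespace Pool.Agent.Results.MP_eaae5b_nt.ThousandRepresentations

/-- `r A n` is the number of ordered pairs `(a, b)` of elements of `A` with `a + b = n`. -/
noncomputable def r (A : Set ℕ) (n : ℕ) : ℕ :=
  Set.ncard {p : ℕ × ℕ | p.1 ∈ A ∧ p.2 ∈ A ∧ p.1 + p.2 = n}

/-- unordered representations -/
noncomputable def rho (A : Set ℕ) (n : ℕ) : ℕ :=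
  Set.ncard {s : Multiset ℕ | Multiset.card s = 2 ∧ (∀ a ∈ s, a ∈ A) ∧ s.sum = n}

open Classical in
/-- first summands -/
noncomputable def S (A : Set ℕ) (n : ℕ) : Finset ℕ :=
  (range (n + 1)).filter (fun a => a ∈ A ∧ n - a ∈ A)

lemma mem_S {A : Set ℕ} {n a : ℕ} : a ∈ S A n ↔ a ≤ n ∧ a ∈ A ∧ n - a ∈ A := by
  classical
  rw [S, mem_filter, mem_range]
  constructor
  · rintro ⟨h1, h2⟩
    exact ⟨by omega, h2⟩
  · rintro ⟨h1, h2⟩
    exact ⟨by omega, h2⟩

lemma r_eq (A : Set ℕ) (n : ℕ) : r A n = (S A n).card := by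
  classical
  have h : {p : ℕ × ℕ | p.1 ∈ A ∧ p.2 ∈ A ∧ p.1 + p.2 = n} =
      (((S A n).image (fun a => (a, n - a)) : Finset (ℕ × ℕ)) : Set (ℕ × ℕ)) := by
    ext ⟨a, b⟩
    rw [Finset.mem_coe, mem_image]
    constructor
    · rintro ⟨h1, h2, h3⟩
      simp only at h1 h2 h3
      have hb : b = n - a := by omega
      subst hb
      exact ⟨a, mem_S.2 ⟨by omega, h1, h2⟩, rfl⟩
    · rintro ⟨c, hc, hcab⟩
      rw [mem_S] at hc
      rw [Prod.mk.injEq] at hcab
      obtain ⟨rfl, rfl⟩ := hcab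
      exact ⟨hc.2.1, hc.2.2, by simp only; omega⟩
  rw [r, h, Set.ncard_coe_finset, card_image_of_injective]
  intro a b hab
  exact (Prod.mk.injEq _ _ _ _ ▸ hab).1

lemma rho_eq (A : Set ℕ) (n : ℕ) : rho A n = ((S A n).filter (fun a => 2 * a ≤ n)).card := by
  classical
  have h : {s : Multiset ℕ | Multiset.card s = 2 ∧ (∀ a ∈ s, a ∈ A) ∧ s.sum = n} =
      ((((S A n).filter (fun a => 2 * a ≤ n)).image (fun a => ({a, n - a} : Multiset ℕ)) :
        Finset (Multiset ℕ)) : Set (Multiset ℕ)) := by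
    ext s
    rw [Finset.mem_coe, mem_image]
    constructor
    · rintro ⟨h1, h2, h3⟩
      obtain ⟨a, b, rfl⟩ := Multiset.card_eq_two.1 h1
      have ha : a ∈ A := h2 a (by simp)
      have hb : b ∈ A := h2 b (by simp)
      have hs : a + b = n := by simpa using h3
      rcases le_total a b with hab | hab
      · refine ⟨a, ?_, ?_⟩
        · rw [mem_filter, mem_S]
          have : n - a = b := by omega
          rw [this]
          exact ⟨⟨by omega, ha, hb⟩, by omega⟩
        · have : n - a = b := by omega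
          simp only [this]
      · refine ⟨b, ?_, ?_⟩
        · rw [mem_filter, mem_S]
          have : n - b = a := by omega
          rw [this]
          exact ⟨⟨by omega, hb, ha⟩, by omega⟩
        · have : n - b = a := by omega
          simp only [this]
          exact Multiset.pair_comm b a
    · rintro ⟨a, ha, rfl⟩
      rw [mem_filter, mem_S] at ha
      refine ⟨by simp, ?_, ?_⟩
      · intro x hx
        simp only [Multiset.insert_eq_cons, Multiset.mem_cons, Multiset.mem_singleton] at hx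
        rcases hx with rfl | rfl
        · exact ha.1.2.1
        · exact ha.1.2.2
      · simp only [Multiset.insert_eq_cons, Multiset.sum_cons, Multiset.sum_singleton]
        omega
  rw [rho, h, Set.ncard_coe_finset, card_image_of_injOn]
  intro a ha b hb hab
  rw [Finset.mem_coe, mem_filter, mem_S] at ha hb
  simp only [Multiset.insert_eq_cons] at hab
  have h1 : a ∈ (b ::ₘ ({n - b} : Multiset ℕ)) := by
    rw [← hab]; simp
  simp only [Multiset.mem_cons, Multiset.mem_singleton] at h1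
  rcases h1 with h1 | h1
  · exact h1
  · omega

/-- the number of ordered representations is `2 ρ` or `2 ρ - 1` -/
lemma r_rho (A : Set ℕ) (n : ℕ) : 2 * rho A n ≤ r A n + 1 ∧ r A n ≤ 2 * rho A n := by
  classical
  rw [r_eq, rho_eq]
  have h1 := Finset.card_filter_add_card_filter_not (s := S A n) (fun a => 2 * a ≤ n)
  have h2 : ((S A n).filter (fun a => ¬ 2 * a ≤ n)).card =
      ((S A n).filter (fun a => 2 * a < n)).card := by
    apply Finset.card_bij (fun a _ => n - a)
    · intro a ha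
      rw [mem_filter, mem_S] at ha ⊢
      have : n - (n - a) = a := by omega
      rw [this]
      exact ⟨⟨by omega, ha.1.2.2, ha.1.2.1⟩, by omega⟩
    · intro a ha b hb hab
      rw [mem_filter, mem_S] at ha hb
      omega
    · intro b hb
      rw [mem_filter, mem_S] at hb
      refine ⟨n - b, ?_, by omega⟩
      rw [mem_filter, mem_S]
      have : n - (n - b) = b := by omega
      rw [this]
      exact ⟨⟨by omega, hb.1.2.2, hb.1.2.1⟩, by omega⟩
  have h3 : ((S A n).filter (fun a => 2 * a ≤ n)).card ≤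
      ((S A n).filter (fun a => 2 * a < n)).card + 1 := by
    have : (S A n).filter (fun a => 2 * a ≤ n) ⊆
        (S A n).filter (fun a => 2 * a < n) ∪ {n / 2} := by
      intro a ha
      rw [mem_filter] at ha
      rw [mem_union, mem_filter, mem_singleton]
      rcases Nat.lt_or_ge (2 * a) n with h | h
      · exact Or.inl ⟨ha.1, h⟩
      · exact Or.inr (by omega)
    refine (card_le_card this).trans ((card_union_le _ _).trans ?_)
    rw [card_singleton]
  have h4 : ((S A n).filter (fun a => 2 * a < n)).card ≤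
      ((S A n).filter (fun a => 2 * a ≤ n)).card := by
    apply card_le_card
    intro a ha
    rw [mem_filter] at ha ⊢
    exact ⟨ha.1, by omega⟩
  omega

/-- the gap in terms of `r` -/
lemma gap (A : Set ℕ) (l K : ℕ) (hl : 1 ≤ l) (hK : 1 ≤ K) (δ : ℝ)
    (hδ : δ < 1 - ((K : ℝ) + l - 1 + 1 / 2) ^ 2 / (4 * l * K))
    (hd : ∀ᶠ N : ℕ in atTop, (({n : ℕ | n < N ∧ r A n < 2 * l - 1}.ncard : ℕ) : ℝ) ≤ δ * N) :
    ∀ m : ℕ, ∃ n : ℕ, m ≤ n ∧ 2 * K + 1 ≤ r A n := by
  have h := Pool.Agent.Results.MP_d5a1e1_nt.VarianceGap.result 2 le_rfl l K hl hK A δ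
    (by push_cast; exact hδ) (by
      filter_upwards [hd] with N hN
      refine le_trans ?_ hN
      have hsub : {n : ℕ | n < N ∧ Set.ncard {s : Multiset ℕ | Multiset.card s = 2 ∧
          (∀ a ∈ s, a ∈ A) ∧ s.sum = n} < l} ⊆ {n : ℕ | n < N ∧ r A n < 2 * l - 1} := by
        rintro n ⟨h1, h2⟩
        refine ⟨h1, ?_⟩
        have h3 := (r_rho A n).2
        have h4 : rho A n < l := h2
        omega
      exact_mod_cast Set.ncard_le_ncard hsub ((Set.finite_lt_nat N).subset fun n hn => hn.1))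
  intro m
  obtain ⟨n, h1, h2⟩ := h m
  refine ⟨n, h1, ?_⟩
  have h3 : K < rho A n := h2
  have := (r_rho A n).1
  omega

/-- `k` representations outside a set of density zero -/
lemma general (A : Set ℕ) (k : ℕ) (hk : 1 ≤ k)
    (hd : ∀ ε : ℝ, 0 < ε → ∀ᶠ N : ℕ in atTop,
      (({n : ℕ | n < N ∧ r A n < k}.ncard : ℕ) : ℝ) ≤ ε * N) :
    ∀ m : ℕ, ∃ n : ℕ, m ≤ n ∧ (k : ℝ) + 2 * √k ≤ (r A n : ℝ) := by
  obtain ⟨l, hl1, hl2⟩ : ∃ l : ℕ, k ≤ 2 * l ∧ 2 * l ≤ k + 1 := ⟨(k + 1) / 2, by omega, by omega⟩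
  have hl : 1 ≤ l := by omega
  have hlr : (1 : ℝ) ≤ l := by exact_mod_cast hl
  have hx0 : 0 ≤ √(2 * (l : ℝ)) := Real.sqrt_nonneg _
  have hx2 : √(2 * (l : ℝ)) ^ 2 = 2 * l := Real.sq_sqrt (by positivity)
  obtain ⟨x, hx⟩ : ∃ x : ℝ, x = √(2 * (l : ℝ)) := ⟨_, rfl⟩
  rw [← hx] at hx0 hx2
  have hx1 : 1 ≤ x := by nlinarith
  obtain ⟨K, hK⟩ : ∃ K : ℕ, K = ⌈(l : ℝ) + x + 1 / 2⌉₊ - 1 := ⟨_, rfl⟩
  have hy : (0 : ℝ) ≤ (l : ℝ) + x + 1 / 2 := by positivity
  have hc1 := Nat.le_ceil ((l : ℝ) + x + 1 / 2)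
  have hc2 := Nat.ceil_lt_add_one hy
  have hc3 : 1 ≤ ⌈(l : ℝ) + x + 1 / 2⌉₊ := by
    rw [Nat.one_le_ceil_iff]
    positivity
  have hKr : ((K : ℕ) : ℝ) = (⌈(l : ℝ) + x + 1 / 2⌉₊ : ℝ) - 1 := by
    rw [hK, Nat.cast_sub hc3, Nat.cast_one]
  have hK1 : (l : ℝ) + x - 1 / 2 ≤ K := by rw [hKr]; linarith
  have hK2 : (K : ℝ) < l + x + 1 / 2 := by rw [hKr]; linarith
  have hK0 : 1 ≤ K := by
    have : (1 : ℝ) ≤ K := by linarith
    exact_mod_cast this
  have hKr0 : (1 : ℝ) ≤ K := by exact_mod_cast hK0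
  have hkey : ((K : ℝ) + l - 1 + 1 / 2) ^ 2 < 4 * l * K := by
    obtain ⟨t, ht⟩ : ∃ t : ℝ, t = l + 1 / 2 + x - K := ⟨_, rfl⟩
    have ht0 : 0 < t := by rw [ht]; linarith
    have ht1 : t ≤ 1 := by rw [ht]; linarith
    have hKt : (K : ℝ) = l + 1 / 2 + x - t := by rw [ht]; ring
    rw [hKt]
    have hl' : (l : ℝ) = x ^ 2 / 2 := by linarith
    rw [hl']
    have : 0 < t * (2 * x - t) := mul_pos ht0 (by linarith)
    nlinarith
  have hpos : 0 < 4 * (l : ℝ) * K := by positivity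
  have hδ : ((K : ℝ) + l - 1 + 1 / 2) ^ 2 / (4 * l * K) < 1 := by rwa [div_lt_one hpos]
  obtain ⟨δ, hδ1, hδ2⟩ := exists_between (sub_pos.2 hδ)
  have h := gap A l K hl hK0 δ hδ2 (by
    filter_upwards [hd δ hδ1] with N hN
    refine le_trans ?_ hN
    have hsub : {n : ℕ | n < N ∧ r A n < 2 * l - 1} ⊆ {n : ℕ | n < N ∧ r A n < k} := by
      rintro n ⟨h1, h2⟩
      exact ⟨h1, by omega⟩
    exact_mod_cast Set.ncard_le_ncard hsub ((Set.finite_lt_nat N).subset fun n hn => hn.1))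
  intro m
  obtain ⟨n, h1, h2⟩ := h m
  refine ⟨n, h1, ?_⟩
  have h3 : (2 : ℝ) * K + 1 ≤ r A n := by exact_mod_cast h2
  have h4 : √(k : ℝ) ≤ x := by
    rw [hx]
    apply Real.sqrt_le_sqrt
    have : (k : ℝ) ≤ 2 * l := by exact_mod_cast hl1
    linarith
  have h5 : (k : ℝ) ≤ 2 * l := by exact_mod_cast hl1
  linarith

/-- If every sufficiently large `n` is in at least `1000` ways a sum `n = a + b` with `a, b ∈ A`
(ordered pairs), then infinitely many `n` have at least `1065 ≥ 1010` such representations.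

More generally, let `k ≥ 1`: if all `n` outside a set of density zero have at least `k`
representations, then infinitely many `n` have at least `k + 2 √k` representations. -/
theorem result :
    (∀ A : Set ℕ, (∃ n₀ : ℕ, ∀ n : ℕ, n₀ ≤ n → 1000 ≤ r A n) →
      ∀ m : ℕ, ∃ n : ℕ, m ≤ n ∧ 1065 ≤ r A n) ∧
    (∀ (A : Set ℕ) (k : ℕ), 1 ≤ k →
      (∀ ε : ℝ, 0 < ε → ∀ᶠ N : ℕ in atTop,
        (({n : ℕ | n < N ∧ r A n < k}.ncard : ℕ) : ℝ) ≤ ε * N) →
      ∀ m : ℕ, ∃ n : ℕ, m ≤ n ∧ (k : ℝ) + 2 * √k ≤ (r A n : ℝ)) := by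
  refine ⟨?_, fun A k hk hd => general A k hk hd⟩
  rintro A ⟨n₀, hn₀⟩
  have h := gap A 500 532 (by norm_num) (by norm_num) (7 / 10 ^ 6) (by norm_num) (by
    rw [eventually_atTop]
    refine ⟨n₀ * 10 ^ 6, fun N hN => ?_⟩
    have hsub : {n : ℕ | n < N ∧ r A n < 2 * 500 - 1} ⊆ ((range n₀ : Finset ℕ) : Set ℕ) := by
      rintro n ⟨_, h2⟩
      rw [Finset.mem_coe, mem_range]
      by_contra hc
      have := hn₀ n (by omega)
      omega
    have h2 := Set.ncard_le_ncard hsub (Finset.finite_toSet _)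
    rw [Set.ncard_coe_finset, card_range] at h2
    have h3 : (({n : ℕ | n < N ∧ r A n < 2 * 500 - 1}.ncard : ℕ) : ℝ) ≤ n₀ := by exact_mod_cast h2
    have h4 : (n₀ : ℝ) * 10 ^ 6 ≤ N := by exact_mod_cast hN
    linarith)
  intro m
  obtain ⟨n, h1, h2⟩ := h m
  exact ⟨n, h1, by omega⟩

end Pool.Agent.Results.MP_eaae5b_nt.ThousandRepresentations
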